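import Pool.Agent.Helper66_Germ.Main

/-!
# An unstable germ of corank two with contractible stable image

The germ is `f : (ℂ⁷, 0) → (ℂ¹¹, 0)`,
`f(a, b, c, d, e, x, y) = (a, b, c, d, e, y a - x b, y b - x c, y c - x² / 2, x y,
- y² / 2 - x d, y d - x e)`, and its stable perturbation adds `s x` to the sixth coordinate.
Since `11 < 2 · 7`, the perturbation is not an embedding: it has double points and cross-caps. For
fixed `(a, b, c, d, e)` the double points lie on at most one line of the `(x, y)`-plane, and they
are exchanged by the symmetry of this line about a centre; scaling towards a continuous family of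
centres contracts the image.
-/

set_option autoImplicit false

namespace Pool.Agent.Results.MP_496a1f_ag.ContractibleCorankTwo

open Pool.Agent.Helper66_Germ

/-- **Q1, positive answer.** There is an unstable `𝒜`-finite germ `(ℂ⁷, 0) → (ℂ¹¹, 0)` of corank
two with a stable perturbation whose image is contractible. -/
theorem result : ∃ f : (Fin 7 → ℂ) → (Fin 11 → ℂ),
    f 0 = 0 ∧ HolAt f 0 ∧ corank f = 2 ∧ AFinite f ∧ ¬ Stable f {0} ∧
      HasContractibleStablePerturbation f :=
  ⟨fs 0, fs_zero, holAt_fs0, corank_fs0, aFinite_fs0, not_stable_fs0, hasContractible_fs0⟩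

end Pool.Agent.Results.MP_496a1f_ag.ContractibleCorankTwo
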